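import Mathlib

/-!
# Ovoids of PG(3,q), q even: the one-space layer (definitions)

F is a finite field of characteristic 2 with 2^h elements.  The digits are `ZMod h`.
Indices `Fin 4`: 0 = x, 1 = s, 2 = t, 3 = f;  br : 0 <-> 3, 1 <-> 2;
om u v = u0 v3 + u1 v2 + u2 v1 + u3 v0,  Qf v = v0 v3 + v1 v2.

* `E F h = (ZMod h -> Fin 4) -> F`  = tensor product of the V_n over all digits n;
* `bf φ ψ` : the product form;  `rho n A` : the matrix A acting at digit n;
* `pr v` : pure tensor;  `pw y n i = y i ^ (2^n)`;  `hat y = pr (pw y)`;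
* `Phi φ w = (φ (fun n => w (n+1)))^2` : the twist;  `cj T = Phi T Phi^-1`;
* `J b` (b : Fin 5): J 0 = 1, J 1 = j_xs, J 2 = j_xt, J 3 = j_sf, J 4 = j_tf;
  `jj a = J (a+1)` (a : Fin 4);  `gam c` : the 4x4 matrix with gam(c)^2 = Qf c.
-/

namespace Pool.OVE

open Finset Function

abbrev W (h : ℕ) : Type := ZMod h → Fin 4

abbrev E (F : Type) (h : ℕ) : Type := W h → F

/-- the dual index: 0 ↔ 3, 1 ↔ 2 -/
def br (i : Fin 4) : Fin 4 := ![3, 2, 1, 0] i

@[simp] lemma br_br (i : Fin 4) : br (br i) = i := by fin_cases i <;> rfl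

lemma br_inj : Function.Injective br := fun i j hij => by
  have := congrArg br hij
  simpa using this

def brE : Fin 4 ≃ Fin 4 := ⟨br, br, br_br, br_br⟩

section basic

variable {F : Type} [Field F] {h : ℕ}

def om (u v : Fin 4 → F) : F := u 0 * v 3 + u 1 * v 2 + u 2 * v 1 + u 3 * v 0

def Qf (v : Fin 4 → F) : F := v 0 * v 3 + v 1 * v 2

lemma om_eq (u v : Fin 4 → F) : om u v = ∑ i, u i * v (br i) := by
  simp only [om, Fin.sum_univ_four]
  rfl

/-- the adjoint matrix for om -/
def adj (A : Matrix (Fin 4) (Fin 4) F) : Matrix (Fin 4) (Fin 4) F :=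
  fun i j => A (br j) (br i)

/-- reversed word -/
def wbr (w : W h) : W h := fun n => br (w n)

@[simp] lemma wbr_wbr (w : W h) : wbr (wbr w) = w := by
  funext n; simp [wbr]

def wbrE : W h ≃ W h := ⟨wbr, wbr, wbr_wbr, wbr_wbr⟩

@[simp] lemma wbrE_apply (w : W h) : wbrE w = wbr w := rfl

lemma wbr_update (w : W h) (n : ZMod h) (j : Fin 4) :
    wbr (update w n j) = update (wbr w) n (br j) := by
  funext m
  by_cases hm : m = n
  · subst hm; simp [wbr]
  · simp [wbr, update_of_ne hm]

/-- matrix A acting at digit n: underlying linear map -/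
def rhoL (n : ZMod h) (A : Matrix (Fin 4) (Fin 4) F) : Module.End F (E F h) where
  toFun φ := fun w => ∑ j, A (w n) j * φ (update w n j)
  map_add' φ ψ := by
    funext w; simp [mul_add, Finset.sum_add_distrib]
  map_smul' c φ := by
    funext w; simp only [Pi.smul_apply, smul_eq_mul, RingHom.id_apply, Finset.mul_sum]
    exact Finset.sum_congr rfl fun j _ => by ring

/-- matrix A acting at digit n: algebra homomorphism -/
def rho (n : ZMod h) : Matrix (Fin 4) (Fin 4) F →ₐ[F] Module.End F (E F h) :=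
  AlgHom.ofLinearMap
    { toFun := rhoL n
      map_add' := fun A B => by
        apply LinearMap.ext; intro φ; funext w
        simp [rhoL, add_mul, Finset.sum_add_distrib]
      map_smul' := fun c A => by
        apply LinearMap.ext; intro φ; funext w
        simp only [rhoL, LinearMap.coe_mk, AddHom.coe_mk, Matrix.smul_apply, smul_eq_mul,
          RingHom.id_apply, LinearMap.smul_apply, Pi.smul_apply, Finset.mul_sum]
        exact Finset.sum_congr rfl fun j _ => by ring }
    (by
      apply LinearMap.ext; intro φ; funext w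
      simp [rhoL, Matrix.one_apply, Finset.sum_ite_eq, ite_mul])
    (by
      intro A B
      apply LinearMap.ext; intro φ; funext w
      simp only [rhoL, LinearMap.coe_mk, AddHom.coe_mk, Matrix.mul_apply, Module.End.mul_apply,
        update_self, update_idem, Finset.sum_mul, Finset.mul_sum]
      rw [Finset.sum_comm]
      exact Finset.sum_congr rfl fun j _ => Finset.sum_congr rfl fun k _ => by ring)

lemma rho_apply (n : ZMod h) (A : Matrix (Fin 4) (Fin 4) F) (φ : E F h) (w : W h) :
    rho n A φ w = ∑ j, A (w n) j * φ (update w n j) := rfl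

end basic

section fin

variable {F : Type} [Field F] {h : ℕ} [NeZero h]

/-- the form on E -/
def bf (φ ψ : E F h) : F := ∑ w : W h, φ w * ψ (wbr w)

/-- pure tensor -/
def pr (v : ZMod h → Fin 4 → F) : E F h := fun w => ∏ n, v n (w n)

/-- Frobenius powers of y -/
def pw (y : Fin 4 → F) (n : ZMod h) : Fin 4 → F := fun i => y i ^ (2 ^ n.val)

def hat (y : Fin 4 → F) : E F h := pr (pw y)

end fin

section J

variable {F : Type} [Field F]

/-- J 0 = 1, j_xs, j_xt, j_sf, j_tf -/
def J (b : Fin 5) : Matrix (Fin 4) (Fin 4) F :=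
  ![(1 : Matrix (Fin 4) (Fin 4) F),
    !![0, 0, 1, 0; 0, 0, 0, 1; 0, 0, 0, 0; 0, 0, 0, 0],
    !![0, 1, 0, 0; 0, 0, 0, 0; 0, 0, 0, 1; 0, 0, 0, 0],
    !![0, 0, 0, 0; 1, 0, 0, 0; 0, 0, 0, 0; 0, 0, 1, 0],
    !![0, 0, 0, 0; 0, 0, 0, 0; 1, 0, 0, 0; 0, 1, 0, 0]] b

/-- the four non-scalar ones, indices 0 = xs, 1 = xt, 2 = sf, 3 = tf -/
def jj (a : Fin 4) : Matrix (Fin 4) (Fin 4) F := J a.succ

/-- gamma(c), rows and columns xs, xt, sf, tf -/
def gam (c : Fin 4 → F) : Matrix (Fin 4) (Fin 4) F :=
  !![0, c 1, c 0, 0; c 2, 0, 0, c 0; c 3, 0, 0, c 1; 0, c 3, c 2, 0]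

end J

section Phi

variable {F : Type} [Field F] [Finite F] [CharP F 2] {h : ℕ}

/-- the twist on E -/
noncomputable def Phi : E F h ≃+ E F h where
  toFun φ := fun w => (φ (fun n => w (n + 1))) ^ 2
  invFun φ := fun w => (frobeniusEquiv F 2).symm (φ (fun n => w (n - 1)))
  left_inv φ := by
    funext w
    simp
  right_inv φ := by
    funext w
    simp
  map_add' φ ψ := by
    funext w
    simp only [Pi.add_apply]
    exact add_pow_char (φ _) (ψ _) 2

lemma Phi_apply (φ : E F h) (w : W h) : Phi φ w = (φ (fun n => w (n + 1))) ^ 2 := rfl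

lemma Phi_smul (c : F) (φ : E F h) : Phi (c • φ) = c ^ 2 • Phi φ := by
  funext w; simp [Phi_apply, mul_pow]

lemma Phi_symm_smul (c : F) (φ : E F h) : Phi.symm (c ^ 2 • φ) = c • Phi.symm φ := by
  apply Phi.injective
  rw [Phi_smul]; simp

/-- conjugation by the twist -/
noncomputable def cj : Module.End F (E F h) ≃+* Module.End F (E F h) where
  toFun T :=
    { toFun := fun φ => Phi (T (Phi.symm φ))
      map_add' := fun φ ψ => by simp
      map_smul' := fun c φ => by
        obtain ⟨d, rfl⟩ : ∃ d : F, d ^ 2 = c := (frobeniusEquiv F 2).surjective c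
        rw [Phi_symm_smul, map_smul, Phi_smul, RingHom.id_apply] }
  invFun T :=
    { toFun := fun φ => Phi.symm (T (Phi φ))
      map_add' := fun φ ψ => by simp
      map_smul' := fun c φ => by
        rw [Phi_smul, map_smul, Phi_symm_smul, RingHom.id_apply] }
  left_inv T := by
    apply LinearMap.ext; intro φ; simp
  right_inv T := by
    apply LinearMap.ext; intro φ; simp
  map_mul' S T := by
    apply LinearMap.ext; intro φ; simp
  map_add' S T := by
    apply LinearMap.ext; intro φ; simp

lemma cj_apply (T : Module.End F (E F h)) (φ : E F h) : cj T φ = Phi (T (Phi.symm φ)) := rfl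

lemma cj_Phi (T : Module.End F (E F h)) (φ : E F h) : cj T (Phi φ) = Phi (T φ) := by
  rw [cj_apply]; simp

end Phi

end Pool.OVE
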