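import Pool.Agent.H41.OVO.Co

/-! # Ovoids, one-space layer: the twist -/

set_option linter.unusedSectionVars false

namespace Pool.OVE41

open Function Pool.OVE
open Finset hiding ext
open Matrix hiding J ext

section Phi

variable {F : Type} [Field F] [Fintype F] [CharP F 2] {h : ℕ} [NeZero h]

/-- shift of words -/
def shE : W h ≃ W h :=
  ⟨fun w n => w (n + 1), fun w n => w (n - 1), fun w => by funext n; simp,
    fun w => by funext n; simp⟩

@[simp] theorem shE_apply (w : W h) (n : ZMod h) : shE w n = w (n + 1) := rfl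

theorem Phi_pr (v : ZMod h → Fin 4 → F) :
    Phi (pr v) = pr (fun n i => v (n - 1) i ^ 2) := by
  funext w
  rw [Phi_apply]
  unfold pr
  rw [← Finset.prod_pow]
  rw [← Equiv.prod_comp (Equiv.addRight (1 : ZMod h)) (fun n => v (n - 1) (w n) ^ 2)]
  exact Finset.prod_congr rfl fun n _ => by simp

theorem pow_val_add_one (hq : Fintype.card F = 2 ^ h) (n : ZMod h) (x : F) :
    x ^ (2 ^ (n + 1).val) = x ^ (2 ^ (n.val + 1)) := by
  by_cases h1 : n.val + 1 < h
  · rw [ZMod.val_add, ZMod.val_one_eq_one_mod]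
    by_cases h2 : h = 1
    · subst h2; omega
    · have : 1 % h = 1 := Nat.mod_eq_of_lt (by have := NeZero.ne h; omega)
      rw [this, Nat.mod_eq_of_lt h1]
  · have h3 : n.val + 1 = h := by have := n.val_lt; omega
    have h4 : (n + 1).val = 0 := by
      rw [ZMod.val_add, ZMod.val_one_eq_one_mod, Nat.add_mod_mod, h3, Nat.mod_self]
    rw [h4, h3, ← hq, FiniteField.pow_card]
    simp

theorem pw_sq (hq : Fintype.card F = 2 ^ h) (y : Fin 4 → F) (n : ZMod h) (i : Fin 4) :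
    pw y (n - 1) i ^ 2 = pw y n i := by
  unfold pw
  have := pow_val_add_one hq (n - 1) (y i)
  rw [sub_add_cancel] at this
  rw [this, pow_succ (2 : ℕ), pow_mul]

theorem Phi_hat (hq : Fintype.card F = 2 ^ h) (y : Fin 4 → F) :
    Phi (hat y : E F h) = hat y := by
  unfold hat
  rw [Phi_pr]
  congr 1
  funext n i
  exact pw_sq hq y n i

theorem bf_Phi (φ ψ : E F h) : bf (Phi φ) (Phi ψ) = bf φ ψ ^ 2 := by
  unfold bf
  have h1 : (∑ w : W h, φ w * ψ (wbr w)) ^ 2 = ∑ w : W h, (φ w * ψ (wbr w)) ^ 2 :=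
    sum_pow_char 2 _ _
  rw [h1, ← Equiv.sum_comp shE (fun w => (φ w * ψ (wbr w)) ^ 2)]
  exact Finset.sum_congr rfl fun w _ => by rw [mul_pow]; rfl

theorem bf_Phi_symm (φ ψ : E F h) : bf (Phi.symm φ) (Phi.symm ψ) ^ 2 = bf φ ψ := by
  rw [← bf_Phi]; simp

/-- `<cj T φ, Φ ψ> = <T Φ⁻¹ φ, ψ>^2` -/
theorem bf_cj_left (T : Module.End F (E F h)) (φ ψ : E F h) :
    bf (cj T (Phi φ)) (Phi ψ) = bf (T φ) ψ ^ 2 := by
  rw [cj_Phi, bf_Phi]

theorem cj_sa {T : Module.End F (E F h)} (hT : ∀ φ ψ, bf (T φ) ψ = bf φ (T ψ)) (φ ψ : E F h) :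
    bf (cj T φ) ψ = bf φ (cj T ψ) := by
  obtain ⟨φ, rfl⟩ := (Phi (F := F) (h := h)).surjective φ
  obtain ⟨ψ, rfl⟩ := (Phi (F := F) (h := h)).surjective ψ
  rw [cj_Phi, cj_Phi, bf_Phi, bf_Phi, hT]

theorem sum_sq {ι : Type} (s : Finset ι) (f : ι → F) :
    (∑ i ∈ s, f i) ^ 2 = ∑ i ∈ s, f i ^ 2 := sum_pow_char 2 _ _

theorem Phi_rho (n : ZMod h) (A : Matrix (Fin 4) (Fin 4) F) (φ : E F h) :
    Phi (rho n A φ) = rho (n + 1) (A.map fun x => x ^ 2) (Phi φ) := by
  funext w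
  rw [Phi_apply, rho_apply, rho_apply, sum_sq]
  refine Finset.sum_congr rfl fun j _ => ?_
  rw [mul_pow, Phi_apply]
  congr 2
  · congr 1
    funext m
    by_cases hm : m = n
    · subst hm; simp
    · rw [update_of_ne hm, update_of_ne]
      simpa using hm

theorem cj_rho (n : ZMod h) (A : Matrix (Fin 4) (Fin 4) F) :
    cj (rho n A : Module.End F (E F h)) = rho (n + 1) (A.map fun x => x ^ 2) := by
  apply LinearMap.ext; intro φ
  obtain ⟨φ, rfl⟩ := (Phi (F := F) (h := h)).surjective φ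
  rw [cj_Phi, Phi_rho]

theorem exists_sqrt (x : F) : ∃ y : F, y ^ 2 = x := (frobeniusEquiv F 2).surjective x

theorem exists_sqrt_mat (A : Matrix (Fin 4) (Fin 4) F) :
    ∃ B : Matrix (Fin 4) (Fin 4) F, (B.map fun x => x ^ 2) = A := by
  choose r hr using fun x : F => exists_sqrt x
  exact ⟨A.map r, by ext i j; simp [hr]⟩

theorem single_map_sq (p q : Fin 4) :
    ((single p q (1 : F)).map fun x => x ^ 2) = single p q 1 := by
  ext i j
  simp only [map_apply, single_apply]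
  split_ifs <;> simp

theorem J_map_sq (b : Fin 5) : ((J b : Matrix (Fin 4) (Fin 4) F).map fun x => x ^ 2) = J b := by
  ext i j
  fin_cases b <;> fin_cases i <;> fin_cases j <;> simp [J]

theorem cj_ext (k : ZMod h) (p p' : Fin 4) (T : Module.End F (E F h)) :
    cj (ext k p p' T) = ext (k + 1) p p' (cj T) := by
  unfold ext
  rw [map_sum]
  refine Finset.sum_congr rfl fun q _ => ?_
  rw [map_mul, map_mul, cj_rho, cj_rho, single_map_sq, single_map_sq]

theorem cj_co (k : ZMod h) (b : Fin 5) (T : Module.End F (E F h)) :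
    cj (co k b T) = co (k + 1) b (cj T) := cj_ext k _ _ T

theorem cj_slot {k : ZMod h} {T : Module.End F (E F h)}
    (hT : T = ∑ b, rho k (J b) * co k b T) :
    cj T = ∑ b, rho (k + 1) (J b) * co (k + 1) b (cj T) := by
  conv_lhs => rw [hT]
  rw [map_sum]
  refine Finset.sum_congr rfl fun b _ => ?_
  rw [map_mul, cj_rho, J_map_sq, cj_co]

theorem Phi_iter (n : ℕ) (φ : E F h) (w : W h) :
    (Phi^[n] φ : E F h) w = φ (fun m => w (m + n)) ^ (2 ^ n) := by
  induction n generalizing φ w with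
  | zero => simp
  | succ n ih =>
    rw [iterate_succ_apply, ih, Phi_apply, ← pow_mul, pow_succ' 2 n]
    congr 2
    funext m
    push_cast
    ring_nf

theorem Phi_iter_h (hq : Fintype.card F = 2 ^ h) (φ : E F h) : (Phi^[h] φ : E F h) = φ := by
  funext w
  rw [Phi_iter, ← hq, FiniteField.pow_card]
  congr 1
  funext m
  simp

theorem cj_iter (n : ℕ) (T : Module.End F (E F h)) (φ : E F h) :
    ((fun T : Module.End F (E F h) => cj T)^[n] T) (Phi^[n] φ) = Phi^[n] (T φ) := by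
  induction n generalizing φ with
  | zero => rfl
  | succ n ih =>
    rw [iterate_succ_apply', iterate_succ_apply', cj_Phi, ih, iterate_succ_apply']

theorem cj_iter_h (hq : Fintype.card F = 2 ^ h) (T : Module.End F (E F h)) :
    (fun T : Module.End F (E F h) => cj T)^[h] T = T := by
  apply LinearMap.ext; intro φ
  have := cj_iter h T φ
  rw [Phi_iter_h hq, Phi_iter_h hq] at this
  exact this

end Phi

section tw

variable {F : Type} [Field F] [Fintype F] [CharP F 2] {h : ℕ} [NeZero h]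
  {Om : Finset (Fin 4 → F)} {Θ : Fin 4 → Module.End F (E F h)}

theorem tw_zero (i : Fin 4) : tw 0 Θ i = Θ i := rfl

theorem tw_succ (m : ℕ) (i : Fin 4) : tw (m + 1) Θ i = cj (tw m Θ i) := by
  unfold tw; rw [iterate_succ_apply']

theorem tw_h (hq : Fintype.card F = 2 ^ h) (i : Fin 4) : tw h Θ i = Θ i := cj_iter_h hq _

theorem tw_trv {n : ZMod h} (hn : Trv Θ n) (m : ℕ) : Trv (tw m Θ) (n + m) := by
  induction m with
  | zero => simpa [Trv, tw_zero] using hn
  | succ m ih =>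
    intro i A φ
    obtain ⟨B, rfl⟩ := exists_sqrt_mat A
    obtain ⟨φ, rfl⟩ := (Phi (F := F) (h := h)).surjective φ
    rw [tw_succ]
    have e : n + ((m + 1 : ℕ) : ZMod h) = n + m + 1 := by push_cast; ring
    rw [e, ← Phi_rho, cj_Phi, cj_Phi, ih i B φ, Phi_rho]

theorem tw_slot {k : ZMod h} {i : Fin 4} (hT : Θ i = ∑ b, rho k (J b) * co k b (Θ i)) (m : ℕ) :
    tw m Θ i = ∑ b, rho (k + (m : ZMod h)) (J b) * co (k + (m : ZMod h)) b (tw m Θ i) := by
  induction m with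
  | zero => simpa [tw_zero] using hT
  | succ m ih =>
    have e : k + ((m + 1 : ℕ) : ZMod h) = k + m + 1 := by push_cast; ring
    rw [tw_succ, e]
    exact cj_slot ih

theorem tw_sa (hT : ∀ i φ ψ, bf (Θ i φ) ψ = bf φ (Θ i ψ)) (m : ℕ) (i : Fin 4) (φ ψ : E F h) :
    bf (tw m Θ i φ) ψ = bf φ (tw m Θ i ψ) := by
  induction m generalizing φ ψ with
  | zero => exact hT i φ ψ
  | succ m ih => rw [tw_succ]; exact cj_sa ih φ ψ

theorem tw_e5 (hB : Base Om Θ) (m : ℕ) {y : Fin 4 → F} (hy : y ∈ Om) :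
    ∑ i, (y i) ^ (2 ^ (m + 1)) • tw m Θ i (hat y) = Qf y ^ (2 ^ m) • hat y := by
  induction m with
  | zero => simpa [tw_zero] using hB.e5 y hy
  | succ m ih =>
    have h1 := congrArg Phi ih
    rw [map_sum, Phi_smul, Phi_hat hB.hq] at h1
    rw [pow_succ 2 m, pow_mul, ← h1]
    refine Finset.sum_congr rfl fun i _ => ?_
    rw [Phi_smul, ← cj_Phi, Phi_hat hB.hq, tw_succ, pow_succ 2 (m + 1), pow_mul]

/-- adjoint form of e5 -/
theorem tw_ev (hB : Base Om Θ) (m : ℕ) {y : Fin 4 → F} (hy : y ∈ Om) (φ : E F h) :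
    ∑ i, (y i) ^ (2 ^ (m + 1)) * bf (tw m Θ i φ) (hat y) = Qf y ^ (2 ^ m) * bf φ (hat y) := by
  have h1 := congrArg (bf φ) (tw_e5 hB m hy)
  rw [bf_smul_right] at h1
  rw [← h1, ← bfB_apply, map_sum]
  refine Finset.sum_congr rfl fun i _ => ?_
  rw [map_smul, smul_eq_mul, bfB_apply, tw_sa hB.sa]

end tw

section sa

variable {F : Type} [Field F] {h : ℕ} [NeZero h]

theorem ext_adj (k : ZMod h) (p p' : Fin 4) (T : Module.End F (E F h))
    (hT : ∀ φ ψ, bf (T φ) ψ = bf φ (T ψ)) (φ ψ : E F h) :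
    bf (ext k p p' T φ) ψ = bf φ (ext k (br p') (br p) T ψ) := by
  have had : ∀ a b : Fin 4, adj (single a b (1 : F)) = single (br b) (br a) 1 := by
    intro a b
    ext i j
    simp only [adj, single_apply]
    congr 1
    apply propext
    constructor
    · rintro ⟨rfl, rfl⟩; simp
    · rintro ⟨rfl, rfl⟩; simp
  unfold ext
  rw [← bfB_apply, ← bfB_apply, LinearMap.sum_apply, LinearMap.sum_apply, map_sum, map_sum,
    LinearMap.sum_apply, ← Equiv.sum_comp brE]
  refine Finset.sum_congr rfl fun q _ => ?_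
  simp only [bfB_apply, Module.End.mul_apply]
  rw [bf_rho, hT, bf_rho, had, had]
  simp [brE]

/-- components of a self-adjoint operator in slot form are self-adjoint -/
theorem co_sa (k : ZMod h) (b : Fin 5) (T : Module.End F (E F h))
    (hT : ∀ φ ψ, bf (T φ) ψ = bf φ (T ψ)) (hs : T = ∑ b, rho k (J b) * co k b T) (φ ψ : E F h) :
    bf (co k b T φ) ψ = bf φ (co k b T ψ) := by
  have h1 := ext_br k T (fun b => co k b T) (fun b A => co_comm k b T A) hs b
  have h2 := ext_adj k (pos b).1 (pos b).2 T hT φ ψ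
  rw [h1] at h2
  exact h2

end sa

section CG

variable {F : Type} [Field F] [Fintype F] [CharP F 2] {h : ℕ} [NeZero h]
  {Om : Finset (Fin 4 → F)} {Θ : Fin 4 → Module.End F (E F h)}

theorem Cc_sa (hB : Base Om Θ) {k : ZMod h} (h0 : k ≠ 0) (h1 : k ≠ 1) (b i : Fin 4)
    (φ ψ : E F h) : bf (Cc k Θ b i φ) ψ = bf φ (Cc k Θ b i ψ) :=
  co_sa k _ _ (hB.sa i) (hB.slot k h0 h1 i) φ ψ

/-- slot form of Θ^(k) at digit 1 -/
theorem tw_slot_one (hB : Base Om Θ) {k : ZMod h} (h0 : k ≠ 0) (h1 : k ≠ 1) (c : Fin 4) :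
    tw k.val Θ c = ∑ a, rho 1 (J a) * Gc k Θ a c := by
  have e : (1 - k) + (k.val : ZMod h) = 1 := by rw [ZMod.natCast_zmod_val]; ring
  have h2 : (1 - k) ≠ 0 := fun e => h1 (by rw [sub_eq_zero] at e; exact e.symm)
  have h3 : (1 - k) ≠ 1 := fun e => h0 (by simpa using e)
  have := tw_slot (hB.slot (1 - k) h2 h3 c) k.val
  rw [e] at this
  exact this

theorem Gc_sa (hB : Base Om Θ) {k : ZMod h} (h0 : k ≠ 0) (h1 : k ≠ 1) (a : Fin 5) (c : Fin 4)
    (φ ψ : E F h) : bf (Gc k Θ a c φ) ψ = bf φ (Gc k Θ a c ψ) :=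
  co_sa 1 _ _ (tw_sa hB.sa k.val c) (tw_slot_one hB h0 h1 c) φ ψ

theorem Cc_rho_self (k : ZMod h) (b i : Fin 4) (A : Matrix (Fin 4) (Fin 4) F) (φ : E F h) :
    Cc k Θ b i (rho k A φ) = rho k A (Cc k Θ b i φ) := co_comm_apply k _ _ A φ

theorem Cc_rho {k m : ZMod h} (hkm : k ≠ m) (hm : Trv Θ m) (b i : Fin 4)
    (A : Matrix (Fin 4) (Fin 4) F) (φ : E F h) :
    Cc k Θ b i (rho m A φ) = rho m A (Cc k Θ b i φ) := co_trv hkm Θ hm _ _ A φ

theorem Gc_rho_one (k : ZMod h) (a : Fin 5) (c : Fin 4) (A : Matrix (Fin 4) (Fin 4) F)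
    (φ : E F h) : Gc k Θ a c (rho 1 A φ) = rho 1 A (Gc k Θ a c φ) := co_comm_apply 1 _ _ A φ

theorem Gc_rho {k m : ZMod h} (hm1 : m ≠ 1) (hm : Trv Θ (m - k)) (a : Fin 5) (c : Fin 4)
    (A : Matrix (Fin 4) (Fin 4) F) (φ : E F h) :
    Gc k Θ a c (rho m A φ) = rho m A (Gc k Θ a c φ) := by
  have h1 : Trv (tw k.val Θ) m := by
    have := tw_trv hm k.val
    rwa [ZMod.natCast_zmod_val, sub_add_cancel] at this
  exact co_trv (Ne.symm hm1) (tw k.val Θ) h1 a c A φ

/-- if all the C vanish, Θ is trivial at k -/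
theorem trv_of_Cc (hB : Base Om Θ) {k : ZMod h} (h0 : k ≠ 0) (h1 : k ≠ 1)
    (hC : ∀ b i φ, Cc k Θ b i φ = 0) : Trv Θ k := by
  intro i A φ
  have hs := hB.slot k h0 h1 i
  have e : Θ i = co k 0 (Θ i) := by
    conv_lhs => rw [hs]
    rw [Fin.sum_univ_succ, Finset.sum_eq_zero, add_zero]
    · simp [J]
    · intro b _
      have : co k b.succ (Θ i) = 0 := by
        apply LinearMap.ext; intro φ; exact hC b i φ
      rw [this, mul_zero]
  rw [e]
  exact co_comm_apply k 0 (Θ i) A φ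

end CG

end Pool.OVE41
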