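import Pool.Agent.H41.OVO.Defs

/-!
# Ovoids, one-space layer: the interface

`Base Om Θ` = everything layer 1 delivers (I1 - I4).
`BaseStmt`  = layer 1:  an ovoid (pairwise non-orthogonal representatives, q^2+1 of them) has a Base.
`GStmt`     = (g2): E18 as a function identity, at every slot k ≠ 0, 1.
`LStmt`     = (L), at every slot k ≠ 0, 1 with Θ trivial at k + 1.
`LayerTwoStmt` = conclusion of layer 2: Θ is trivial at all digits except one.
-/

namespace Pool.OVE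

open Finset Function

section co

variable {F : Type} [Field F] {h : ℕ}

/-- the (p,p') coefficient of an operator at digit k; it commutes with `rho k` -/
def ext (k : ZMod h) (p p' : Fin 4) (T : Module.End F (E F h)) : Module.End F (E F h) :=
  ∑ q : Fin 4, rho k (Matrix.single q p 1) * T * rho k (Matrix.single p' q 1)

/-- a place where `J b` has its entry 1 -/
def pos (b : Fin 5) : Fin 4 × Fin 4 := ![(0, 0), (0, 2), (0, 1), (1, 0), (2, 0)] b

/-- the `J b`-component of an operator at digit k -/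
def co (k : ZMod h) (b : Fin 5) (T : Module.End F (E F h)) : Module.End F (E F h) :=
  ext k (pos b).1 (pos b).2 T

/-- Θ is trivial at digit m -/
def Trv (T : Fin 4 → Module.End F (E F h)) (m : ZMod h) : Prop :=
  ∀ i M φ, T i (rho m M φ) = rho m M (T i φ)

end co

section base

variable {F : Type} [Field F] [Fintype F] [CharP F 2] {h : ℕ} [NeZero h]

/-- what layer 1 delivers -/
structure Base (Om : Finset (Fin 4 → F)) (Θ : Fin 4 → Module.End F (E F h)) : Prop where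
  /-- the field has 2^h elements -/
  hq : Fintype.card F = 2 ^ h
  h3 : 3 ≤ h
  card : Om.card = Fintype.card F ^ 2 + 1
  ov : ∀ y ∈ Om, ∀ z ∈ Om, y ≠ z → om y z ≠ 0
  /-- (I1) -/
  span : Submodule.span F (hat '' (Om : Set (Fin 4 → F))) = (⊤ : Submodule F (E F h))
  /-- (I2) -/
  pl : ∀ φ ψ : E F h, ∑ y ∈ Om, bf φ (hat y) * bf ψ (hat y) = bf φ ψ
  /-- (I3) -/
  sa : ∀ i φ ψ, bf (Θ i φ) ψ = bf φ (Θ i ψ)
  t0 : Trv Θ 0
  t1 : Trv Θ 1
  e5 : ∀ y ∈ Om, ∑ i, (y i) ^ 2 • Θ i (hat y) = Qf y • hat y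
  /-- (I4) -/
  slot : ∀ k : ZMod h, k ≠ 0 → k ≠ 1 → ∀ i, Θ i = ∑ b : Fin 5, rho k (J b) * co k b (Θ i)

/-- twisted Θ: `tw m Θ` satisfies Σ_i (y_i)^(2^(m+1)) (tw m Θ i) hat y = Qf(y)^(2^m) hat y -/
noncomputable def tw (m : ℕ) (Θ : Fin 4 → Module.End F (E F h)) (i : Fin 4) :
    Module.End F (E F h) := (fun T : Module.End F (E F h) => cj T)^[m] (Θ i)

/-- C b i = the slot-k components (b ≠ 0) of Θ i -/
def Cc (k : ZMod h) (Θ : Fin 4 → Module.End F (E F h)) (b i : Fin 4) :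
    Module.End F (E F h) := co k b.succ (Θ i)

/-- G a c = the slot-1 components of Θ^(k) c  (k.val twists) -/
noncomputable def Gc (k : ZMod h) (Θ : Fin 4 → Module.End F (E F h)) (a : Fin 5) (c : Fin 4) :
    Module.End F (E F h) := co 1 a (tw k.val Θ c)

end base

/-- LAYER 1 -/
def BaseStmt : Prop :=
  ∀ (F : Type) [Field F] [Fintype F] [CharP F 2] (h : ℕ) [NeZero h] (Om : Finset (Fin 4 → F)),
    Fintype.card F = 2 ^ h → 3 ≤ h → Om.card = Fintype.card F ^ 2 + 1 →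
    (∀ y ∈ Om, ∀ z ∈ Om, y ≠ z → om y z ≠ 0) →
    ∃ Θ : Fin 4 → Module.End F (E F h), Base Om Θ

/-- (g2) at the slot k: for ξ in E, y in Om:
Q(y)^(2^k) Σ_i y_i^2 <C b i ξ, ŷ> = Σ_b' γ(y^(k+1))_{b b'} Σ_i y_i^2 <C b' i ξ, ŷ> -/
def GStmt : Prop :=
  ∀ (F : Type) [Field F] [Fintype F] [CharP F 2] (h : ℕ) [NeZero h] (Om : Finset (Fin 4 → F))
    (Θ : Fin 4 → Module.End F (E F h)), Base Om Θ →
    ∀ k : ZMod h, k ≠ 0 → k ≠ 1 → ∀ y ∈ Om, ∀ ξ : E F h, ∀ b : Fin 4,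
      Qf y ^ (2 ^ k.val) * ∑ i, y i ^ 2 * bf (Cc k Θ b i ξ) (hat y) =
        ∑ b', gam (fun i => y i ^ (2 ^ (k.val + 1))) b b' *
          ∑ i, y i ^ 2 * bf (Cc k Θ b' i ξ) (hat y)

/-- (L) at the slot k, Θ trivial at k + 1 -/
def LStmt : Prop :=
  ∀ (F : Type) [Field F] [Fintype F] [CharP F 2] (h : ℕ) [NeZero h] (Om : Finset (Fin 4 → F))
    (Θ : Fin 4 → Module.End F (E F h)), Base Om Θ →
    ∀ k : ZMod h, k ≠ 0 → k ≠ 1 → Trv Θ (k + 1) → ∀ b c i : Fin 4,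
      ∑ a : Fin 5, ∑ l : Fin 4, (J a : Matrix (Fin 4) (Fin 4) F) l i • (Gc k Θ a c * Cc k Θ b l) =
        ∑ b', gam (Pi.single c 1 : Fin 4 → F) b b' • Cc k Θ b' i

/-- LAYER 2 -/
def LayerTwoStmt : Prop :=
  ∀ (F : Type) [Field F] [Fintype F] [CharP F 2] (h : ℕ) [NeZero h] (Om : Finset (Fin 4 → F))
    (Θ : Fin 4 → Module.End F (E F h)), Base Om Θ →
    ∃ k : ZMod h, k ≠ 0 ∧ k ≠ 1 ∧ ∀ m, m ≠ k → Trv Θ m

end Pool.OVE
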