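import Pool.Agent.H41.OVO.Stmt

/-! # Ovoids, one-space layer: components at a digit, twists -/

namespace Pool.OVE41

open Function Pool.OVE
open Finset hiding ext
open Matrix hiding J ext

section rho

variable {F : Type} [Field F] {h : ℕ}

theorem rho_comm {n m : ZMod h} (hnm : n ≠ m) (A B : Matrix (Fin 4) (Fin 4) F) :
    (rho n A : Module.End F (E F h)) * rho m B = rho m B * rho n A := by
  apply LinearMap.ext; intro φ; funext w
  simp only [Module.End.mul_apply, rho_apply, Finset.mul_sum]
  rw [Finset.sum_comm]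
  refine Finset.sum_congr rfl fun i _ => Finset.sum_congr rfl fun j _ => ?_
  rw [update_of_ne hnm.symm, update_of_ne hnm, update_comm hnm]
  ring

theorem rho_comm_apply {n m : ZMod h} (hnm : n ≠ m) (A B : Matrix (Fin 4) (Fin 4) F) (φ : E F h) :
    rho n A (rho m B φ) = rho m B (rho n A φ) := by
  have := congrArg (fun T : Module.End F (E F h) => T φ) (rho_comm hnm A B)
  simpa using this

theorem single_mul_eq (p q : Fin 4) (A : Matrix (Fin 4) (Fin 4) F) :
    single p q (1 : F) * A = ∑ s, A q s • single p s (1 : F) := by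
  ext i j
  simp only [mul_apply, single_apply, Matrix.sum_apply, Matrix.smul_apply, smul_eq_mul, ite_and,
    ite_mul, one_mul, zero_mul, mul_ite, mul_one, mul_zero]
  by_cases hp : p = i <;> simp [hp]

theorem mul_single_eq (q p : Fin 4) (A : Matrix (Fin 4) (Fin 4) F) :
    A * single q p (1 : F) = ∑ r, A r q • single r p (1 : F) := by
  ext i j
  simp only [mul_apply, single_apply, Matrix.sum_apply, Matrix.smul_apply, smul_eq_mul, ite_and,
    mul_ite, mul_one, mul_zero]
  by_cases hp : p = j <;> simp [hp]

theorem ext_comm (k : ZMod h) (p p' : Fin 4) (T : Module.End F (E F h))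
    (A : Matrix (Fin 4) (Fin 4) F) : ext k p p' T * rho k A = rho k A * ext k p p' T := by
  unfold ext
  rw [Finset.sum_mul, Finset.mul_sum]
  have e1 : ∀ q : Fin 4, rho k (single q p (1 : F)) * T * rho k (single p' q 1) * rho k A =
      ∑ s, A q s • (rho k (single q p (1 : F)) * T * rho k (single p' s 1)) := by
    intro q
    rw [mul_assoc _ _ (rho k A), ← map_mul, single_mul_eq, map_sum, Finset.mul_sum]
    exact Finset.sum_congr rfl fun s _ => by rw [map_smul, mul_smul_comm]
  have e2 : ∀ q : Fin 4, rho k A * (rho k (single q p (1 : F)) * T * rho k (single p' q 1)) =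
      ∑ r, A r q • (rho k (single r p (1 : F)) * T * rho k (single p' q 1)) := by
    intro q
    rw [← mul_assoc, ← mul_assoc, ← map_mul, mul_single_eq, map_sum, Finset.sum_mul,
      Finset.sum_mul]
    exact Finset.sum_congr rfl fun s _ => by rw [map_smul, smul_mul_assoc, smul_mul_assoc]
  simp only [e1, e2]
  rw [Finset.sum_comm]

theorem sum_single_diag : ∑ q : Fin 4, single q q (1 : F) = (1 : Matrix (Fin 4) (Fin 4) F) := by
  ext i j
  simp only [Matrix.sum_apply, single_apply, one_apply, ite_and]
  by_cases hij : i = j <;> simp [hij]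

/-- ext of `rho k M * S`, S commuting with digit k -/
theorem ext_rho_mul (k : ZMod h) (p p' : Fin 4) (M : Matrix (Fin 4) (Fin 4) F)
    (S : Module.End F (E F h)) (hS : ∀ A, S * rho k A = rho k A * S) :
    ext k p p' (rho k M * S) = M p p' • S := by
  unfold ext
  have e1 : ∀ q : Fin 4, rho k (single q p (1 : F)) * (rho k M * S) * rho k (single p' q 1) =
      M p p' • (rho k (single q q (1 : F)) * S) := by
    intro q
    rw [mul_assoc, mul_assoc, hS, ← mul_assoc, ← mul_assoc, ← map_mul, ← map_mul]
    have : single q p (1 : F) * M * single p' q 1 = M p p' • single q q (1 : F) := by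
      rw [single_mul_eq, Finset.sum_mul, Finset.sum_eq_single p']
      · rw [smul_mul_assoc, single_mul_single_same, one_mul]
      · intro s _ hs
        rw [smul_mul_assoc, single_mul_single_of_ne (h := hs), smul_zero]
      · simp
    rw [this, map_smul, smul_mul_assoc]
  simp only [e1]
  rw [← Finset.smul_sum, ← Finset.sum_mul, ← map_sum, sum_single_diag, map_one, one_mul]

theorem ext_sum {ι : Type} (s : Finset ι) (k : ZMod h) (p p' : Fin 4)
    (T : ι → Module.End F (E F h)) : ext k p p' (∑ b ∈ s, T b) = ∑ b ∈ s, ext k p p' (T b) := by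
  unfold ext
  rw [Finset.sum_comm]
  refine Finset.sum_congr rfl fun q _ => ?_
  rw [Finset.mul_sum, Finset.sum_mul]

theorem co_comm (k : ZMod h) (b : Fin 5) (T : Module.End F (E F h))
    (A : Matrix (Fin 4) (Fin 4) F) : co k b T * rho k A = rho k A * co k b T :=
  ext_comm k _ _ T A

theorem co_comm_apply (k : ZMod h) (b : Fin 5) (T : Module.End F (E F h))
    (A : Matrix (Fin 4) (Fin 4) F) (φ : E F h) : co k b T (rho k A φ) = rho k A (co k b T φ) := by
  have := congrArg (fun T : Module.End F (E F h) => T φ) (co_comm k b T A)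
  simpa using this

/-- `co` commutes with whatever `T` and digit k commute with -/
theorem ext_comm_of (k : ZMod h) (p p' : Fin 4) (T R : Module.End F (E F h))
    (hT : T * R = R * T) (hR : ∀ A, rho k A * R = R * rho k A) :
    ext k p p' T * R = R * ext k p p' T := by
  unfold ext
  rw [Finset.sum_mul, Finset.mul_sum]
  refine Finset.sum_congr rfl fun q _ => ?_
  rw [mul_assoc, hR, ← mul_assoc, mul_assoc _ T R, hT, ← mul_assoc, hR, mul_assoc, mul_assoc,
    mul_assoc]

theorem co_comm_of (k : ZMod h) (b : Fin 5) (T R : Module.End F (E F h))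
    (hT : T * R = R * T) (hR : ∀ A, rho k A * R = R * rho k A) :
    co k b T * R = R * co k b T := ext_comm_of k _ _ T R hT hR

/-- if Θ is trivial at m ≠ k then its components at k commute with digit m -/
theorem co_trv {k m : ZMod h} (hkm : k ≠ m) (Θ : Fin 4 → Module.End F (E F h)) (hm : Trv Θ m)
    (b : Fin 5) (i : Fin 4) (A : Matrix (Fin 4) (Fin 4) F) (φ : E F h) :
    co k b (Θ i) (rho m A φ) = rho m A (co k b (Θ i) φ) := by
  have h1 : Θ i * rho m A = rho m A * Θ i := by
    apply LinearMap.ext; intro φ; simpa using hm i A φ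
  have := congrArg (fun T : Module.End F (E F h) => T φ)
    (co_comm_of k b (Θ i) (rho m A) h1 fun B => rho_comm hkm B A)
  simpa using this

theorem J_pos (b c : Fin 5) : (J c : Matrix (Fin 4) (Fin 4) F) (pos b).1 (pos b).2 =
    if b = c then 1 else 0 := by
  fin_cases b <;> fin_cases c <;> simp [J, pos]

theorem J_br (b c : Fin 5) : (J c : Matrix (Fin 4) (Fin 4) F) (br (pos b).2) (br (pos b).1) =
    if b = c then 1 else 0 := by
  fin_cases b <;> fin_cases c <;> simp [J, pos, br]

theorem adj_J (b : Fin 5) : adj (J b : Matrix (Fin 4) (Fin 4) F) = J b := by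
  ext i j
  fin_cases b <;> fin_cases i <;> fin_cases j <;> simp [J, adj, br]

/-- uniqueness of components -/
theorem co_of_sum (k : ZMod h) (T : Module.End F (E F h)) (C : Fin 5 → Module.End F (E F h))
    (hC : ∀ b A, C b * rho k A = rho k A * C b) (hT : T = ∑ b, rho k (J b) * C b) (b : Fin 5) :
    co k b T = C b := by
  unfold co
  rw [hT, ext_sum, Finset.sum_congr rfl fun c _ => ext_rho_mul k _ _ (J c) (C c) (hC c)]
  simp only [J_pos, ite_smul, one_smul, zero_smul]
  simp

theorem ext_br (k : ZMod h) (T : Module.End F (E F h)) (C : Fin 5 → Module.End F (E F h))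
    (hC : ∀ b A, C b * rho k A = rho k A * C b) (hT : T = ∑ b, rho k (J b) * C b) (b : Fin 5) :
    ext k (br (pos b).2) (br (pos b).1) T = C b := by
  rw [hT, ext_sum, Finset.sum_congr rfl fun c _ => ext_rho_mul k _ _ (J c) (C c) (hC c)]
  simp only [J_br, ite_smul, one_smul, zero_smul]
  simp

/-- in slot form: T is in slot form at k iff it is the sum of its components -/
theorem slot_iff (k : ZMod h) (T : Module.End F (E F h)) :
    (∃ C : Fin 5 → Module.End F (E F h), (∀ b A, C b * rho k A = rho k A * C b) ∧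
      T = ∑ b, rho k (J b) * C b) ↔ T = ∑ b, rho k (J b) * co k b T := by
  constructor
  · rintro ⟨C, hC, hT⟩
    rw [Finset.sum_congr rfl fun b _ => by rw [co_of_sum k T C hC hT b]]
    exact hT
  · intro hT
    exact ⟨fun b => co k b T, fun b A => co_comm k b T A, hT⟩

end rho

section bf

variable {F : Type} [Field F] {h : ℕ} [NeZero h]

theorem bf_add_left (φ φ' ψ : E F h) : bf (φ + φ') ψ = bf φ ψ + bf φ' ψ := by
  simp [bf, add_mul, Finset.sum_add_distrib]

theorem bf_add_right (φ ψ ψ' : E F h) : bf φ (ψ + ψ') = bf φ ψ + bf φ ψ' := by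
  simp [bf, mul_add, Finset.sum_add_distrib]

theorem bf_smul_left (c : F) (φ ψ : E F h) : bf (c • φ) ψ = c * bf φ ψ := by
  simp only [bf, Pi.smul_apply, smul_eq_mul, Finset.mul_sum]
  exact Finset.sum_congr rfl fun w _ => by ring

theorem bf_smul_right (c : F) (φ ψ : E F h) : bf φ (c • ψ) = c * bf φ ψ := by
  simp only [bf, Pi.smul_apply, smul_eq_mul, Finset.mul_sum]
  exact Finset.sum_congr rfl fun w _ => by ring

theorem bf_comm (φ ψ : E F h) : bf φ ψ = bf ψ φ := by
  unfold bf
  rw [← Equiv.sum_comp wbrE]
  exact Finset.sum_congr rfl fun w _ => by simp [mul_comm]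

/-- the form as a bilinear form -/
def bfB : LinearMap.BilinForm F (E F h) :=
  LinearMap.mk₂ F bf bf_add_left bf_smul_left bf_add_right bf_smul_right

@[simp] theorem bfB_apply (φ ψ : E F h) : bfB φ ψ = bf φ ψ := rfl

theorem bf_single (φ : E F h) (w : W h) : bf φ (Pi.single (wbr w) 1) = φ w := by
  unfold bf
  rw [Finset.sum_eq_single w]
  · simp
  · intro v _ hv
    have : wbr v ≠ wbr w := fun e => hv (wbrE.injective e)
    simp [Pi.single_eq_of_ne this]
  · simp

theorem bf_left_nondeg (φ : E F h) (hφ : ∀ ψ, bf φ ψ = 0) : φ = 0 := by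
  funext w
  rw [← bf_single φ w, hφ]; rfl

theorem bfB_nondeg : (bfB : LinearMap.BilinForm F (E F h)).Nondegenerate := by
  refine ⟨?_, ?_⟩
  · intro φ hφ; exact bf_left_nondeg φ hφ
  · intro φ hφ; exact bf_left_nondeg φ fun ψ => by rw [bf_comm]; exact hφ ψ

theorem bf_rho (n : ZMod h) (A : Matrix (Fin 4) (Fin 4) F) (φ ψ : E F h) :
    bf (rho n A φ) ψ = bf φ (rho n (adj A) ψ) := by
  unfold bf
  simp only [rho_apply, Finset.sum_mul, Finset.mul_sum, adj]
  -- swap (w, j) with (update w n j, w n)
  rw [← Finset.sum_product', ← Finset.sum_product']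
  refine Finset.sum_bij' (fun x _ => (update x.1 n x.2, br (x.1 n)))
    (fun x _ => (update x.1 n (br x.2), x.1 n)) ?_ ?_ ?_ ?_ ?_
  · intro x _; simp
  · intro x _; simp
  · rintro ⟨w, j⟩ _; simp
  · rintro ⟨w, j⟩ _; simp
  · rintro ⟨w, j⟩ _
    simp only [wbr_update, update_self, update_idem, br_br]
    have : update (wbr w) n (br (w n)) = wbr w := by
      have : br (w n) = wbr w n := rfl
      rw [this, update_eq_self]
    have h2 : (wbr (update w n j)) n = br j := by simp [wbr]
    rw [this]
    ring

end bf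

end Pool.OVE41
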